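import Mathlib
import Pool.Agent.Q201.ExtMat

set_option autoImplicit false

/-!
# Extremal multidimensional (0,1)-matrices with several optimal hyperplane covers

The example comes from the constant-sum weighted majority game with the 9 weights
`7, 6, 6, 4, 4, 4, 3, 2, 13` of total `49` and quota `25`: exchanging the weights `3` and `2` of two
inequivalent players does not change the winning coalitions. Both weight systems give optimal covers
of the matrix, and their mean has the entry `(5 / 2) δ`.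
-/

namespace Pool.Agent.Results.MP_fa4fe0_co.CoverNotMultiple

open Q201.ExtMat

variable {d n : ℕ}

/-- `K` is a polydiagonal of `A`: a polyplex of weight `n`. -/
def IsPolydiagonal (A : Set (Fin d → Fin n)) (K : (Fin d → Fin n) → ℝ) : Prop :=
  IsPolyplex A K ∧ ∑ α, K α = n

/-- `A` is extremal: it has no polydiagonal, but it has one after changing any zero entry to one. -/
def Extremal (A : Set (Fin d → Fin n)) : Prop :=
  (¬ ∃ K, IsPolydiagonal A K) ∧ ∀ α, α ∉ A → ∃ K, IsPolydiagonal (insert α A) K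

/-- The deficiency of `A` is `δ`: the maximal weight of a polyplex is `n - δ`. -/
def HasDeficiency (A : Set (Fin d → Fin n)) (δ : ℝ) : Prop :=
  IsGreatest {x : ℝ | ∃ K, IsPolyplex A K ∧ ∑ α, K α = x} (n - δ)

/-- `Λ` is an optimal hyperplane cover of `A`: a hyperplane cover of minimal weight. -/
def IsOptimalCover (A : Set (Fin d → Fin n)) (Λ : Fin d → Fin n → ℝ) : Prop :=
  IsCover A Λ ∧ ∀ Λ', IsCover A Λ' → ∑ i, ∑ j, Λ i j ≤ ∑ i, ∑ j, Λ' i j

/-- the first weights -/
def wt (i : ℕ) : ℕ := [7, 6, 6, 4, 4, 4, 3, 2, 13].getD i 0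

/-- the second weights -/
def wt' (i : ℕ) : ℕ := [7, 6, 6, 4, 4, 4, 2, 3, 13].getD i 0

/-- the coalitions of the dual solution, as bit masks -/
def mask (k : Fin 8) : ℕ := ![59, 222, 262, 61, 246, 238, 449, 312] k

/-- their multiplicities -/
def mult (k : Fin 8) : ℕ := ![6, 4, 7, 6, 4, 4, 13, 5] k

theorem wt_zero : ∀ i, 9 ≤ i → wt i = 0 := by
  intro i hi
  unfold wt
  rw [List.getD_eq_default]
  simpa using hi

theorem wt_zero' : ∀ i, 9 ≤ i → wt' i = 0 := by
  intro i hi
  unfold wt'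
  rw [List.getD_eq_default]
  simpa using hi

theorem bool_swap : ∀ b0 b1 b2 b3 b4 b5 b6 b7 b8 : Bool,
    25 ≤ (if b0 then 7 else 0) + (if b1 then 6 else 0) + (if b2 then 6 else 0) +
      (if b3 then 4 else 0) + (if b4 then 4 else 0) + (if b5 then 4 else 0) +
      (if b6 then 3 else 0) + (if b7 then 2 else 0) + (if b8 then 13 else 0) →
    25 ≤ (if b0 then 7 else 0) + (if b1 then 6 else 0) + (if b2 then 6 else 0) +
      (if b3 then 4 else 0) + (if b4 then 4 else 0) + (if b5 then 4 else 0) +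
      (if b6 then 2 else 0) + (if b7 then 3 else 0) + (if b8 then 13 else 0) := by
  decide +kernel

theorem swap (b : ℕ → Bool) (h : 25 ≤ ∑ i ∈ Finset.range 9, (if b i then wt i else 0)) :
    25 ≤ ∑ i ∈ Finset.range 9, (if b i then wt' i else 0) := by
  have h1 := bool_swap (b 0) (b 1) (b 2) (b 3) (b 4) (b 5) (b 6) (b 7) (b 8)
  simp only [Finset.sum_range_succ, Finset.sum_range_zero, zero_add] at h ⊢
  exact h1 h

theorem split (b : ℕ → Bool) : 25 ≤ ∑ i ∈ Finset.range 9, (if b i then wt i else 0) ∨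
    (∑ i ∈ Finset.range 9, if b i then wt i else 0) + 25 ≤ 49 := by
  omega

theorem cover_swap (hd : 9 ≤ d) :
    IsCover (mat d n wt 25) fun i j => (lam wt' 25 i j : ℝ) / 25 := by
  have h := cover_mat (d := d) (n := n) (w := wt') (q := 25) (by norm_num)
  refine ⟨by simpa using h.1, fun α hα => ?_⟩
  have h1 : α ∈ mat d n wt' 25 := by
    have h2 : 25 ≤ ∑ i, lam wt 25 i (α i) := hα
    change 25 ≤ ∑ i, lam wt' 25 i (α i)
    rw [sum_lam_apply hd (by omega) wt_zero] at h2
    rw [sum_lam_apply hd (by omega) wt_zero']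
    split_ifs at h2 ⊢ with h3
    · omega
    · rw [add_zero] at h2 ⊢
      exact swap _ h2
  simpa using h.2 α h1

/-- **Main theorem.** For all `d ≥ 9` and `n ≥ 2` there is an extremal `d`-dimensional
`(0,1)`-matrix of order `n` and deficiency `1 / 25` which has two different optimal hyperplane covers
and an optimal hyperplane cover with an entry `(5 / 2) (1 / 25)`, which is not an integer multiple of
the deficiency. -/
theorem result (d n : ℕ) (hd : 9 ≤ d) (hn : 2 ≤ n) : ∃ (A : Set (Fin d → Fin n)) (δ : ℝ),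
    Extremal A ∧ HasDeficiency A δ ∧ δ = 1 / 25 ∧
    (∃ Λ Λ', IsOptimalCover A Λ ∧ IsOptimalCover A Λ' ∧ Λ ≠ Λ') ∧
    ∃ Λ, IsOptimalCover A Λ ∧ ∃ i j, Λ i j = 5 / 2 * δ ∧ ∀ z : ℤ, Λ i j ≠ z * δ := by
  have hcov := cover_mat (d := d) (n := n) (w := wt) (q := 25) (by norm_num)
  have hcov' := cover_swap (n := n) hd
  have hcw := cover_weight (d := d) (n := n) (w := wt) (q := 25) (W := 49) hn hd (by norm_num)
    wt_zero (by norm_num) (by decide)
  have hcw' := cover_weight (d := d) (n := n) (w := wt') (q := 25) (W := 49) hn hd (by norm_num)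
    wt_zero' (by norm_num) (by decide)
  obtain ⟨K0, hK0, hK0w⟩ := exists_polyplex (d := d) (n := n) (w := wt) (q := 25) (W := 49) (r := 9)
    (m := 8) hn hd (by norm_num) (by norm_num) (by norm_num) (fun k i => (mask k).testBit i) mult
    (by decide +kernel) (by decide +kernel) (by decide +kernel)
  have e1 : (n : ℝ) - (2 * (25 : ℕ) - (49 : ℕ)) / (25 : ℕ) = n - 1 / 25 := by norm_num
  rw [e1] at hcw hcw' hK0w
  simp only [Nat.cast_ofNat] at hcov hcw hcw'
  have hle : ∀ K, IsPolyplex (mat d n wt 25) K → ∑ α, K α ≤ n - 1 / 25 := by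
    intro K hK
    have h1 := weak_duality hK hcov
    rwa [hcw] at h1
  have hmin : ∀ Λ, IsCover (mat d n wt 25) Λ → (n : ℝ) - 1 / 25 ≤ ∑ i, ∑ j, Λ i j := by
    intro Λ hΛ
    rw [← hK0w]
    exact weak_duality hK0 hΛ
  have hopt : ∀ Λ, IsCover (mat d n wt 25) Λ → ∑ i, ∑ j, Λ i j = n - 1 / 25 →
      IsOptimalCover (mat d n wt 25) Λ := fun Λ hΛ hs => ⟨hΛ, fun Λ' hΛ' => hs ▸ hmin Λ' hΛ'⟩
  let i6 : Fin d := ⟨6, by omega⟩
  let o : Fin n := ⟨1, by omega⟩
  refine ⟨mat d n wt 25, 1 / 25, ⟨?_, fun α hα => ?_⟩, ⟨⟨K0, hK0, hK0w⟩, ?_⟩, rfl,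
    ⟨fun i j => (lam wt 25 i j : ℝ) / 25, fun i j => (lam wt' 25 i j : ℝ) / 25, hopt _ hcov hcw,
      hopt _ hcov' hcw', ?_⟩,
    fun i j => ((lam wt 25 i j : ℝ) / 25 + (lam wt' 25 i j : ℝ) / 25) / 2, hopt _ ⟨?_, ?_⟩ ?_,
      i6, o, ?_, ?_⟩
  · rintro ⟨K, hK, hw⟩
    have h1 := hle K hK
    rw [hw] at h1
    linarith
  · obtain ⟨K, hK, h⟩ := diagonal_of_notMem (w := wt) (q := 25) hn (by omega)
      (split_of hd wt_zero (W := 49) (by decide) split) hα
    refine ⟨K, hK, ?_⟩
    have h2 := sum_fiber K (⟨0, by omega⟩ : Fin d)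
    simp_rw [h] at h2
    rw [← h2]
    simp
  · rintro x ⟨K, hK, rfl⟩
    exact hle K hK
  · intro h
    have h1 := congrFun (congrFun h i6) o
    simp [lam, i6, o, wt, wt'] at h1
  · intro i j; positivity
  · intro α hα
    have h1 := hcov.2 α hα
    have h2 := hcov'.2 α hα
    rw [← Finset.sum_div, Finset.sum_add_distrib]
    linarith
  · have : ∀ i : Fin d, ∑ j : Fin n, ((lam wt 25 i j : ℝ) / 25 + (lam wt' 25 i j : ℝ) / 25) / 2 =
        ((∑ j : Fin n, (lam wt 25 i j : ℝ) / 25) + ∑ j : Fin n, (lam wt' 25 i j : ℝ) / 25) / 2 := by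
      intro i
      rw [← Finset.sum_div, Finset.sum_add_distrib]
    rw [Finset.sum_congr rfl fun i _ => this i, ← Finset.sum_div, Finset.sum_add_distrib, hcw, hcw']
    ring
  · simp [lam, i6, o, wt, wt']; norm_num
  · intro z h
    have h1 : ((lam wt 25 i6 o : ℝ) / 25 + (lam wt' 25 i6 o : ℝ) / 25) / 2 = 5 / 2 * (1 / 25) := by
      simp [lam, i6, o, wt, wt']; norm_num
    have h' : ((lam wt 25 i6 o : ℝ) / 25 + (lam wt' 25 i6 o : ℝ) / 25) / 2 = z * (1 / 25) := h
    rw [h1] at h'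
    have h2 : ((2 * z : ℤ) : ℝ) = ((5 : ℤ) : ℝ) := by push_cast; linarith
    have h3 : 2 * z = 5 := by exact_mod_cast h2
    omega

end Pool.Agent.Results.MP_fa4fe0_co.CoverNotMultiple
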